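import Mathlib
import Pool.Graph.R_seed8.R532.Nc4
import Pool.Graph.R_seed8.TH456.TM.E
import Pool.Graph.R_seed8.TH456.TM.AlgDep
import Pool.Graph.R_seed8.H491R3.PE.Near

set_option autoImplicit false

/-! # Near-coincidences of powers under an algebraic dependence of the quotient of the logarithms -/

namespace Pool.Agent.H11.PE

open Real Filter Asymptotics
open Pool.Agent.TH456.TM Pool.Agent.R532.Nc

/-- an element which is algebraically dependent on `θ` is algebraic over `ℤ[θ]` -/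
theorem alg_of_dep {θ y : ℂ} (hθ : Transcendental ℤ θ) (h : ¬ AlgebraicIndependent ℚ ![θ, y]) :
    IsAlgebraic (Algebra.adjoin ℤ ({θ} : Set ℂ)) y := by
  by_contra hcon
  apply h
  have h1 : AlgebraicIndependent ℤ (fun _ : Unit => θ) :=
    (algebraicIndependent_unique_type_iff).2 hθ
  have hr : Set.range (fun _ : Unit => θ) = {θ} := by simp
  have h2 : AlgebraicIndependent ℤ (fun o : Option Unit => o.elim y (fun _ => θ)) := by
    rw [h1.option_iff_transcendental, hr]
    exact hcon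
  have h3 : AlgebraicIndependent ℤ ![θ, y] := by
    have h4 := h2.comp (fun i : Fin 2 => if i = 0 then some () else none) (by
      intro i j hij
      fin_cases i <;> fin_cases j <;> simp_all)
    convert h4 using 1
    funext i
    fin_cases i <;> simp
  have : Algebra.IsAlgebraic ℤ ℚ :=
    ⟨fun q => (IsFractionRing.isAlgebraic_iff ℤ ℚ ℚ).2 (isAlgebraic_algebraMap q)⟩
  exact h3.extendScalars ℚ

/-- the real version, for a number `θ` with a transcendence measure -/
theorem not_liouville_of_dep {θ γ : ℝ} (hθ : MeasT (θ : ℂ)) (hγ : Irrational γ)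
    (h : ¬ AlgebraicIndependent ℚ ![θ, γ]) : Meas γ := by
  have hθt : Transcendental ℤ (θ : ℂ) := by
    rintro ⟨P, hP, hP0⟩
    obtain ⟨κ, c, _, hc, hm⟩ := hθ P.natDegree
    set H : ℝ := 1 + ∑ j ∈ P.support, |(P.coeff j : ℝ)| with hH
    have hH1 : 1 ≤ H := by
      have : 0 ≤ ∑ j ∈ P.support, |(P.coeff j : ℝ)| := Finset.sum_nonneg fun _ _ => abs_nonneg _
      linarith
    have h1 := hm P hP le_rfl H hH1 (by
      intro j
      by_cases hj : j ∈ P.support
      · have := Finset.single_le_sum (f := fun j => |(P.coeff j : ℝ)|) (fun _ _ => abs_nonneg _) hj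
        linarith
      · rw [Polynomial.notMem_support_iff.1 hj]
        simp
        linarith)
    rw [hP0, norm_zero, mul_zero] at h1
    linarith
  apply meas_of hγ
  intro hL
  have hγt : Transcendental ℤ (γ : ℂ) := by
    have h1 : Transcendental ℤ γ := hL.transcendental
    rintro h2
    exact h1 ((isAlgebraic_algebraMap_iff (A := ℂ) (algebraMap ℝ ℂ).injective).1 h2)
  have h3 : ¬ AlgebraicIndependent ℚ ![(θ : ℂ), (γ : ℂ)] := by
    intro h1
    apply h
    have h2 : ![(θ : ℂ), (γ : ℂ)] = (Algebra.algHom ℚ ℝ ℂ) ∘ ![θ, γ] := by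
      funext i
      fin_cases i <;> rfl
    rw [h2] at h1
    exact (AlgHom.algebraicIndependent_iff (Algebra.algHom ℚ ℝ ℂ)
      (algebraMap ℝ ℂ).injective).1 h1
  have h4 := measT_of_isAlgebraic hθ (γ : ℂ) (alg_of_dep hθt h3) hγt
  exact (meas_of_measT h4).2 hL

theorem nearMisses_finite {a b : ℝ} (ha : 1 < a) (hb : 1 < b) (h : Meas (log a / log b)) :
    (nearMisses a b 1).Finite := by
  obtain ⟨μ, κ, hκ, hm⟩ := h
  have hla : 0 < log a := log_pos ha
  have hlb : 0 < log b := log_pos hb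
  obtain ⟨N1, hN1⟩ := pow_unbounded_of_one_lt (4 : ℝ) ha
  -- exponential beats polynomial
  have ht : Tendsto (fun n : ℕ => (n : ℝ) ^ μ * (2 / log b * exp (-(log a / 2) * n))) atTop (nhds 0) := by
    have h1 := Real.tendsto_pow_mul_exp_neg_atTop_nhds_zero μ
    have h2 : Tendsto (fun n : ℕ => (log a / 2) * (n : ℝ)) atTop atTop :=
      tendsto_natCast_atTop_atTop.const_mul_atTop (by positivity)
    have h3 := (h1.comp h2).const_mul (2 / log b / (log a / 2) ^ μ)
    rw [mul_zero] at h3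
    refine h3.congr (fun n => ?_)
    simp only [Function.comp]
    rw [mul_pow, show -(log a / 2 * (n : ℝ)) = -(log a / 2) * n by ring]
    field_simp
  obtain ⟨N2, hN2⟩ := (ht.eventually_lt_const hκ).exists_forall_of_atTop
  set N := max (max N1 N2) 1 with hN
  have hbound : ∀ p ∈ nearMisses a b 1, p.1 < N := by
    rintro ⟨n, m⟩ hp
    by_contra hcon
    simp only at hcon
    push Not at hcon
    have hn1 : N1 ≤ n := le_trans (le_trans (le_max_left _ _) (le_max_left _ _)) hcon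
    have hn2 : N2 ≤ n := le_trans (le_trans (le_max_right _ _) (le_max_left _ _)) hcon
    have hn3 : 1 ≤ n := le_trans (le_max_right _ _) hcon
    have h4 : (4 : ℝ) ≤ a ^ n := hN1.le.trans (pow_le_pow_right₀ ha.le hn1)
    have h5 := (near_approx ha hb h4 hp).1
    have h6 := hm n hn3 m
    have h7 := hN2 n hn2
    have h8 : (n : ℝ) ^ μ * |(n : ℝ) * (log a / log b) - m| ≤
        (n : ℝ) ^ μ * (2 / log b * exp (-(log a / 2) * n)) :=
      mul_le_mul_of_nonneg_left h5 (by positivity)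
    have h9 : κ ≤ (n : ℝ) ^ μ * |(n : ℝ) * (log a / log b) - m| := by exact_mod_cast h6
    linarith
  -- for each `n` finitely many `m`
  have hsub : nearMisses a b 1 ⊆ ⋃ n ∈ Set.Iio N, {p : ℕ × ℕ | p.1 = n ∧ b ^ p.2 < 1 + 2 * a ^ n + 1} := by
    rintro ⟨n, m⟩ hp
    rw [Set.mem_iUnion₂]
    refine ⟨n, hbound _ hp, rfl, ?_⟩
    have h1 : |1 * a ^ n - b ^ m| ^ 2 < 1 * a ^ n := hp
    rw [one_mul] at h1
    show b ^ m < 1 + 2 * a ^ n + 1
    have h2 : |a ^ n - b ^ m| < 1 + a ^ n := by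
      by_contra hcon
      push Not at hcon
      have ha0 : 0 < a ^ n := by positivity
      nlinarith
    have h3 := (abs_lt.1 h2).1
    linarith
  refine (Set.Finite.biUnion (Set.finite_Iio N) fun n _ => ?_).subset hsub
  obtain ⟨M, hM⟩ := pow_unbounded_of_one_lt (1 + 2 * a ^ n + 1) hb
  refine ((Set.finite_singleton n).prod (Set.finite_Iio M)).subset ?_
  rintro ⟨n', m⟩ ⟨h1, h2⟩
  refine ⟨h1, ?_⟩
  show m < M
  by_contra hcon
  push Not at hcon
  have h3 : b ^ M ≤ b ^ m := pow_le_pow_right₀ hb.le hcon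
  simp only at h2
  linarith

/-- the formula -/
theorem formula {a b : ℝ} (ha : 1 < a) (hb : 1 < b) (h : Meas (log a / log b))
    (hirr : Irrational (log a / log b)) :
    ∃ C : ℝ, ∀ x : ℝ, 2 ≤ x → {p : ℕ × ℕ | |a ^ p.1 - b ^ p.2| ≤ x}.Finite ∧
      |(({p : ℕ × ℕ | |a ^ p.1 - b ^ p.2| ≤ x}.ncard : ℕ) : ℝ) - log x ^ 2 / (log a * log b)| ≤
        C * log x := by
  have hfin := nearMisses_finite ha hb h
  have hS : (Pool.Agent.H491R3.PE.SS a b).Finite := by
    refine hfin.subset ?_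
    rintro p ⟨_, hp⟩
    show |1 * a ^ p.1 - b ^ p.2| ^ 2 < 1 * a ^ p.1
    simpa using hp
  have hSX : ∀ x, (Pool.Agent.H491R3.PE.SX a b x).Finite := fun x => hS.subset fun p hp => hp.1
  obtain ⟨C, hC⟩ := Pool.Agent.H491R3.PE.countS ha hb hirr hSX
  set K : ℝ := ((Pool.Agent.H491R3.PE.SS a b).ncard : ℝ) with hK
  have hK0 : 0 ≤ K := Nat.cast_nonneg _
  refine ⟨C + K / log 2, fun x hx => ?_⟩
  obtain ⟨h1, h2⟩ := hC x hx
  refine ⟨h1, ?_⟩
  have h3 : (((Pool.Agent.H491R3.PE.SX a b x).ncard : ℕ) : ℝ) ≤ K := by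
    rw [hK]
    exact_mod_cast Set.ncard_le_ncard (fun p (hp : p ∈ Pool.Agent.H491R3.PE.SX a b x) => hp.1) hS
  have h4 : (0 : ℝ) ≤ (((Pool.Agent.H491R3.PE.SX a b x).ncard : ℕ) : ℝ) := Nat.cast_nonneg _
  have hl2 : 0 < log 2 := log_pos (by norm_num)
  have h5 : K ≤ K / log 2 * log x := by
    rw [div_mul_eq_mul_div, le_div_iff₀ hl2]
    exact mul_le_mul_of_nonneg_left (log_le_log (by norm_num) hx) hK0
  have h6 : |(((Pool.Agent.H491R3.PE.NS a b x).ncard : ℕ) : ℝ) - log x ^ 2 / (log a * log b)| ≤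
      C * log x + K := by
    have h7 := abs_le.1 h2
    rw [abs_le]
    constructor <;> linarith [h7.1, h7.2]
  refine h6.trans ?_
  rw [add_mul]
  linarith

end Pool.Agent.H11.PE
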